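import Pool.Agent.N924.LP.One
import Pool.Agent.N924.LP.Box

/-!
# Leopoldt's conjecture for almost all members of the families with `r₁ + 2 r₂` parameters

For integers `a_1, …, a_{r₁}`, `b_1, c_1, …, b_{r₂}, c_{r₂}`, `c_k > 0`, let

  `f = ∏ (Y - a_i) ∏ ((Y - b_k)² + c_k) - 1`   (`poly x`),

a polynomial of degree `n = r₁ + 2 r₂` which depends on `n` free parameters, and let `K = ℚ[Y]/(f)`. The
values of the factors at the root are `r₁ + r₂` units. `Good p x`: `f` is irreducible, `K` has exactly
`r₁` real and `r₂` complex places, and Leopoldt's conjecture holds for `K` and the prime `p`.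

**Theorem.** (1) For every prime `p` and every signature `(r₁, r₂)` the proportion of the integral points
`x = (a, b, c)` of the box `|a_i| ≤ N, |b_k| ≤ N, 1 ≤ c_k ≤ N` with `Good p x` tends to one.

(2) Let `z_0(t), z_1(t), z_2(t), …` be an infinite sequence of functions of a positive integer `t` with
integral values, any finite number of which is jointly uniformly distributed modulo all positive
integers `q`, for `t` in given sets `S N ⊆ (N, 2 N]` (`UD`). There is ONE set `E` of density zero
(relative to the sets `S N`, and also relative to a second system of sets) such that for ALL primes `p`,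
ALL signatures `(r₁, r₂)` and ALL choices of different functions `a_i, b_k, c_k` among the `z_l`, for all
but finitely many `t` outside `E` with `c_k(t) > 0`: `Good p (a(t), b(t), c(t))`.

(3) Examples are `z_l(t) = ⌊P_l(t)⌋` with generalised polynomials `P_l(t) = ∑ a_x t ^ x` with distinct
leading exponents which are positive and not integers and have positive coefficients (as
`⌊t ^ (2 l + √2)⌋`), along all integers `t` and along the primes.

The starting results on Leopoldt's conjecture concern families with one integral parameter (for every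
`p` all but finitely many members); here all coefficients of the factors vary independently. The
statements do not follow from those on lines, as the number of exceptions on a line is not bounded
uniformly, and the points `(z_0(t), …, z_{n-1}(t))` of (2) do not lie on curves.

Proof. On a class of parameters modulo `p²` the logarithms of the units are power series in `n` variables
over `ℤ_p` with coefficients in `ℤ_p[Y]/(f)`. If their determinants vanished identically, so they would on
the line through a point of the class where only one of the `a_i` (or `b_k`) varies; there the criterion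
of the starting library (`Pool.Agent.H33R4`: Puiseux expansions at infinity, independence of
logarithms over `ℤ_p[[s]]`) shows that they do not, as the units are independent modulo constants: a product
of powers of the other factors, considered as a function of `Y` (the parameter is determined by `Y`), takes
infinitely many values. So the parameters with a failure lie in the zero set of a power series
`h ≠ 0` in `n` variables; by Fubini's theorem this closed set has Haar measure zero, and so it is
contained in `o(p^{k n})` classes modulo `p^k`. The irreducibility and the signature are elementary when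
the parameters are far apart. A diagonal argument gives one set `E`. The uniform distribution in (3) is
due to exponential sums of the starting library (`Pool.Agent.Y961.JR`) and helper666.
-/

set_option autoImplicit false

namespace Pool.Agent.Results.MP_5f2860_nt.AlmostAllMembers

open Polynomial NumberField
open Pool.Agent.H637R2.Leo (Leopoldt)

/-- The indices of the parameters `a_i`, `b_k`, `c_k`. -/
abbrev Ind (r₁ r₂ : ℕ) : Type := Fin r₁ ⊕ (Fin r₂ ⊕ Fin r₂)

/-- The polynomial `∏ (Y - a_i) ∏ ((Y - b_k)² + c_k) - 1`. -/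
noncomputable def poly {r₁ r₂ : ℕ} (x : Ind r₁ r₂ → ℤ) : ℤ[X] :=
  (∏ i, (X - C (x (Sum.inl i)))) *
    (∏ k, ((X - C (x (Sum.inr (Sum.inl k)))) ^ 2 + C (x (Sum.inr (Sum.inr k))))) - 1

/-- The polynomial is irreducible and defines fields with `r₁` real and `r₂` complex places for which
Leopoldt's conjecture holds at `p`. -/
def Good (p : ℕ) [Fact p.Prime] {r₁ r₂ : ℕ} (x : Ind r₁ r₂ → ℤ) : Prop :=
  Irreducible (poly x) ∧ ∀ (K : Type) [Field K] [NumberField K] (θ : K), aeval θ (poly x) = 0 →
    IntermediateField.adjoin ℚ {θ} = ⊤ →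
    InfinitePlace.nrRealPlaces K = r₁ ∧ InfinitePlace.nrComplexPlaces K = r₂ ∧ Leopoldt K p

/-- The box `|a_i| ≤ N`, `|b_k| ≤ N`, `1 ≤ c_k ≤ N`. -/
def Box (r₁ r₂ N : ℕ) : Set (Ind r₁ r₂ → ℤ) :=
  {x | (∀ i, |x (Sum.inl i)| ≤ N) ∧ (∀ k, |x (Sum.inr (Sum.inl k))| ≤ N) ∧
    ∀ k, 1 ≤ x (Sum.inr (Sum.inr k)) ∧ x (Sum.inr (Sum.inr k)) ≤ N}

/-- The sets `S N ⊆ (N, 2 N]` along which densities are considered. -/
def Scheme (S : ℕ → Finset ℕ) : Prop := ∀ N, S N ⊆ Finset.Ioc N (2 * N)

/-- `E` has density zero relative to the sets `S N`. -/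
def NullIn (S : ℕ → Finset ℕ) (E : Set ℕ) : Prop :=
  ∀ ε : ℝ, 0 < ε → ∃ N₀ : ℕ, ∀ N : ℕ, N₀ ≤ N →
    ({t : ℕ | t ∈ S N ∧ t ∈ E}.ncard : ℝ) ≤ ε * (S N).card

/-- Any finite number of the functions `z l` is jointly uniformly distributed modulo all `q`, for `t`
in the sets `S N`, `N → ∞`. -/
def UD (S : ℕ → Finset ℕ) (z : ℕ → ℕ → ℤ) : Prop :=
  ∀ (r : ℕ) (σ : Fin r → ℕ), Function.Injective σ → ∀ q : ℕ, 1 ≤ q → ∀ ρ : Fin r → ℤ,
    Filter.Tendsto
      (fun N => ({t : ℕ | t ∈ S N ∧ ∀ i, (q : ℤ) ∣ z (σ i) t - ρ i}.ncard : ℝ) / (S N).card)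
      Filter.atTop (nhds (1 / (q : ℝ) ^ r))

/-- `c` is the largest exponent of the generalised polynomial `∑ a_x t ^ x`; it is positive and not an
integer and has a positive coefficient. -/
def Admissible (F : Finset ℝ) (a : ℝ → ℝ) (c : ℝ) : Prop :=
  c ∈ F ∧ (∀ x ∈ F, x ≤ c) ∧ 0 < c ∧ (∀ m : ℕ, c ≠ m) ∧ 0 < a c

/-- The integer part of the value at `t` of the generalised polynomial `P_l`. -/
noncomputable def value (F : ℕ → Finset ℝ) (a : ℕ → ℝ → ℝ) (l t : ℕ) : ℤ :=
  ⌊∑ x ∈ F l, a l x * (t : ℝ) ^ x⌋

theorem good_iff (p : ℕ) [Fact p.Prime] {r₁ r₂ : ℕ} (x : Ind r₁ r₂ → ℤ) :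
    Good p x ↔ Pool.Agent.N924.LP.Holds p x := by
  have h1 : poly x = Pool.Agent.N924.LP.pol x := by
    unfold poly Pool.Agent.N924.LP.pol
    rw [Fintype.prod_sum_type]
    rfl
  unfold Good Pool.Agent.N924.LP.Holds
  rw [h1]

/-- **Leopoldt's conjecture for almost all members of the families with `r₁ + 2 r₂` parameters.**
(1) in boxes; (2) one null set for all signatures, all primes and all choices among the functions
`z l`; (3) the integer parts of generalised polynomials are examples, along the integers and along the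
primes. -/
theorem result :
    (∀ (p : ℕ) [Fact p.Prime] (r₁ r₂ : ℕ), 1 ≤ r₁ + r₂ → ∀ ε : ℝ, 0 < ε → ∃ N₀ : ℕ, ∀ N : ℕ,
      N₀ ≤ N → ({x | x ∈ Box r₁ r₂ N ∧ ¬ Good p x}.ncard : ℝ) ≤ ε * (Box r₁ r₂ N).ncard) ∧
    (∀ S₁ S₂ : ℕ → Finset ℕ, Scheme S₁ → Scheme S₂ → ∀ z : ℕ → ℕ → ℤ, UD S₁ z → UD S₂ z →
      ∃ E : Set ℕ, NullIn S₁ E ∧ NullIn S₂ E ∧
        ∀ (p : ℕ) [Fact p.Prime] (r₁ r₂ : ℕ), 1 ≤ r₁ + r₂ → ∀ σ : Ind r₁ r₂ → ℕ,
          Function.Injective σ → {t : ℕ | t ∉ E ∧ (∀ k, 0 < z (σ (Sum.inr (Sum.inr k))) t) ∧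
            ¬ Good p (fun i => z (σ i) t)}.Finite) ∧
    ∀ (F : ℕ → Finset ℝ) (a : ℕ → ℝ → ℝ) (c : ℕ → ℝ), (∀ l, Admissible (F l) (a l) (c l)) →
      Function.Injective c → UD (fun N => Finset.Ioc N (2 * N)) (value F a) ∧
        UD (fun N => (Finset.Ioc N (2 * N)).filter Nat.Prime) (value F a) := by
  classical
  refine ⟨?_, ?_, fun F a c h hc => Pool.Agent.N924.TH.ud_fl h hc⟩
  · intro p _ r₁ r₂ hr ε hε
    -- the box as a product
    let lo : Ind r₁ r₂ → ℕ → ℤ := fun i N =>
      Sum.elim (fun _ => -(N : ℤ) - 1) (Sum.elim (fun _ => -(N : ℤ) - 1) (fun _ => 0)) i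
    have hbox : ∀ N, Box r₁ r₂ N =
        ↑(Fintype.piFinset fun i : Ind r₁ r₂ => Finset.Ioc (lo i N) (N : ℤ)) := by
      intro N
      ext x
      rw [Finset.mem_coe, Fintype.mem_piFinset]
      simp only [Box, Set.mem_ofPred_eq, Finset.mem_Ioc, lo]
      constructor
      · rintro ⟨h1, h2, h3⟩ (i | k | k)
        · have := abs_le.1 (h1 i)
          simp only [Sum.elim_inl]
          constructor <;> linarith
        · have := abs_le.1 (h2 k)
          simp only [Sum.elim_inl, Sum.elim_inr]
          constructor <;> linarith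
        · have := h3 k
          simp only [Sum.elim_inr]
          constructor <;> linarith
      · intro h
        refine ⟨fun i => ?_, fun k => ?_, fun k => ?_⟩
        · have := h (Sum.inl i)
          simp only [Sum.elim_inl] at this
          rw [abs_le]
          constructor <;> linarith
        · have := h (Sum.inr (Sum.inl k))
          simp only [Sum.elim_inl, Sum.elim_inr] at this
          rw [abs_le]
          constructor <;> linarith
        · have := h (Sum.inr (Sum.inr k))
          simp only [Sum.elim_inr] at this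
          constructor <;> linarith
    have hlim : ∀ i : Ind r₁ r₂, Filter.Tendsto (fun N : ℕ => (((N : ℤ) : ℝ) - lo i N))
        Filter.atTop Filter.atTop := by
      intro i
      refine Filter.tendsto_atTop_mono (f := fun N : ℕ => (N : ℝ)) (fun N => ?_)
        tendsto_natCast_atTop_atTop
      have h0 : (0 : ℝ) ≤ N := by positivity
      rcases i with i | k | k
      · simp only [lo, Sum.elim_inl]
        push_cast
        linarith
      · simp only [lo, Sum.elim_inl, Sum.elim_inr]
        push_cast
        linarith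
      · simp only [lo, Sum.elim_inr]
        push_cast
        linarith
    have hmain := Pool.Agent.N924.LP.main _ p hr _
      (Pool.Agent.N924.LP.eqd_box (κ := Ind r₁ r₂) lo (fun _ N => (N : ℤ)) hlim)
    obtain ⟨N₀, hN₀⟩ := hmain ε hε
    refine ⟨N₀, fun N hN => ?_⟩
    have h1 := hN₀ N hN
    have e1 : {x | x ∈ Box r₁ r₂ N ∧ ¬ Good p x} = {t : Ind r₁ r₂ → ℤ |
        t ∈ (Fintype.piFinset fun i : Ind r₁ r₂ => Finset.Ioc (lo i N) (N : ℤ)) ∧
        t ∈ {t | (∀ k, 0 < t (Sum.inr (Sum.inr k))) ∧ ¬ Pool.Agent.N924.LP.Holds p t}} := by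
      ext x
      simp only [Set.mem_ofPred_eq]
      rw [← Finset.mem_coe, ← hbox N, good_iff]
      constructor
      · rintro ⟨h2, h3⟩
        exact ⟨h2, fun k => by have := h2.2.2 k; linarith, h3⟩
      · rintro ⟨h2, h3, h4⟩
        exact ⟨h2, h4⟩
    rw [e1, hbox N, Set.ncard_coe_finset]
    exact h1
  · intro S₁ S₂ hS₁ hS₂ z hz₁ hz₂
    let D : Type := Σ d : {p : ℕ // p.Prime} × ℕ × ℕ, (Ind d.2.1 d.2.2 → ℕ)
    let Q : D → Prop := fun d => 1 ≤ d.1.2.1 + d.1.2.2 ∧ Function.Injective d.2
    let B : D → Set ℕ := fun d =>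
      haveI : Fact (d.1.1 : ℕ).Prime := ⟨d.1.1.2⟩
      if Q d then {t : ℕ | (∀ k, 0 < z (d.2 (Sum.inr (Sum.inr k))) t) ∧
        ¬ Pool.Agent.N924.LP.Holds (d.1.1 : ℕ) (fun i => z (d.2 i) t)} else ∅
    have hB : ∀ S : ℕ → Finset ℕ, UD S z → ∀ d, Pool.Agent.N924.LP.Nul S (B d) := by
      intro S hz d
      haveI : Fact (d.1.1 : ℕ).Prime := ⟨d.1.1.2⟩
      by_cases hd : Q d
      · have h1 := Pool.Agent.N924.LP.main S (d.1.1 : ℕ) hd.1 _
          (Pool.Agent.N924.LP.ud_eqd hz d.2 hd.2)
        refine h1.mono ?_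
        intro t ht
        simp only [B, if_pos hd] at ht
        exact ht
      · intro ε hε
        refine ⟨0, fun N _ => ?_⟩
        have e1 : {t : ℕ | t ∈ S N ∧ t ∈ B d} = ∅ := by
          ext t
          simp [B, if_neg hd]
        rw [e1, Set.ncard_empty]
        push_cast
        positivity
    obtain ⟨E, h1, h2, h3⟩ := Pool.Agent.N924.LP.one_set B hS₁ hS₂ (hB S₁ hz₁) (hB S₂ hz₂)
    refine ⟨E, h1, h2, ?_⟩
    intro p hp r₁ r₂ hr σ hσ
    refine (h3 ⟨(⟨p, hp.out⟩, r₁, r₂), σ⟩).subset ?_
    rintro t ⟨ht, hpos, hbad⟩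
    refine ⟨ht, ?_⟩
    have hQ : Q ⟨(⟨p, hp.out⟩, r₁, r₂), σ⟩ := ⟨hr, hσ⟩
    simp only [B, if_pos hQ]
    exact ⟨hpos, fun h => hbad ((good_iff p _).2 h)⟩

end Pool.Agent.Results.MP_5f2860_nt.AlmostAllMembers
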