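import Mathlib
import Pool.Agent.N848.OL.Fin

/-!
# Leopoldt's conjecture at `p` for all composites with abelian fields of `p`-power degree

Let `p` be a prime and `k` a number field (Galois or not) of degree prime to `p`, such that

* an element of `k` which at every prime is a unit congruent to `1` modulo `p ^ 2`, up to `p`-th
  powers, is a `p`-th power (for `p = 2` by Kummer theory: no quadratic extension of `k` is
  unramified at all finite primes; for odd `p` the condition at the primes above `p` says that the
  element is a local `p`-th power, and the condition says that the group `V` of Shafarevich is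
  trivial);
* for `p = 2` there is only one prime of `k` above `2`;
* for odd `p` no ramification index above `p` is divisible by `p - 1` (then `k` is `p`-rational).

Call a Galois extension `A / ℚ` admissible if every prime number `q ≠ p` is unramified in `A` or has
only one prime of `k` above it.

(1) For all admissible Galois extensions `F / ℚ` of `p`-power degree Leopoldt's conjecture at `p`
holds for `k F` if and only if it holds for `F`.

(2) For every admissible abelian extension `A / ℚ` all of whose finite subextensions have `p`-power
degree (for example the maximal abelian pro-`p` extension unramified outside `p` and the primes with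
a single prime of `k` above them) Leopoldt's conjecture at `p` holds, unconditionally, for all number
fields contained in `k A`.

(3) If the degree of `k` is a prime which does not divide `p - 1`, there are infinitely many primes
`q` congruent to `1` modulo `p` with only one prime of `k` above them (so that `A` may be ramified at
all of them).

(4) For `p = 2` the theorem holds for all number fields contained in the field generated over `k` by
the square roots of all integers whose prime divisors have only one prime of `k` above them.

(5) The field generated by a root of `X³ - X² - 3 X + 1` is an example of such a field `k` for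
`p = 2` and for `p = 5`. It is cubic, totally real and not Galois over `ℚ`.

Proof. Let `K / F` be of degree prime to `p` and let `P(F, K)` be the statement: an element of `K`
which at every prime is a unit congruent to `1` modulo `p ^ 2` up to `p`-th powers and whose norm to
`F` is a `p`-th power is a `p`-th power. Let `p` be odd. If `F' / F` is cyclic of degree `p`, `K'` the
composite of `K` and `F'`, and every prime of `F` not above `p` which ramifies in `F'` has only one
prime of `K` above it, then `P(F, K)` implies `P(F', K')`: if there is a counterexample, then there is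
one whose class modulo `p`-th powers is fixed by the group of order `p`, so by Hilbert 90 there is one
in `K`. Its norm to `F` is a `p`-th power, because `F'` does not contain the roots of unity of order
`p`. At the primes above `p` it is a local `p`-th power in `K'`, hence in `K`: a `p`-th root in `K'` of
an approximation is almost invariant, since the roots of unity of order `p` are not in the
completions, and its trace divided by `p` is a `p`-th root of an approximation. At the other primes
the valuation is divisible by `p`: this is clear if the prime is unramified in `K'`, otherwise the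
prime is the only one above its restriction to `F`, so its valuation times the degree of `K / F` is
the valuation of the norm. By induction `P(F, k F)` holds for all admissible `F`. If `u` is a unit of
`K = k F` close to `1` at all primes above `p`, the unit `u^n / N u`, where `n = [K : F]` and `N u` is
the norm to `F`, is a `p`-th power of a unit `w` of norm `1` by `P(F, K)`, and `w` is again close to
`1`. Repeating this, `u^n / N u` is a `p^j`-th power with large `j`, and so is `N u` by Leopoldt's
conjecture for `F`; hence so is `u`. For abelian `F` Leopoldt's conjecture is the theorem of Ax and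
Brumer (starting library). For `p = 2` Kummer theory and a sign argument are used instead.

The parts were proved together with helpers 18, 31, 34, 59, 75, 111, 118, 135, 136, 186, 218, 280,
281, 285, 288, 327, 328, 340, 356, 359, 371, 402, 409, 413, 458, 507, 527, 592, 655, 664, 667, 692,
700, 706, 707, 720, 727, 733, 806, 850, 899, 942, 950, 966 and 971.
-/

set_option autoImplicit false

namespace Pool.Agent.Results.MP_5f2860_nt.CompositesAtEveryPrime

open NumberField IsDedekindDomain Module Filter Topology

/-- Leopoldt's conjecture for the number field `K` and the prime `p`, in the form of the frozen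
statement: units of `K` congruent to `1` at all primes above `p` which are multiplicatively
independent over `ℤ` stay independent over `ℤ_p` in the product of the completions above `p`. -/
def Leopoldt (K : Type) [Field K] [NumberField K] (p : ℕ) [Fact p.Prime] : Prop :=
  ∀ (n : ℕ) (ε : Fin n → (𝓞 K)ˣ),
    (∀ i, ((ε i : 𝓞 K) - 1) ∈ (Ideal.span {((p : ℕ) : 𝓞 K)}).radical) →
    (∀ c : Fin n → ℤ, ∏ i, ε i ^ c i = 1 → c = 0) →
    ∀ (a : Fin n → PadicInt p) (m : ℕ → Fin n → ℤ),
      (∀ i, Tendsto (fun k => ((m k i : ℤ) : PadicInt p)) atTop (𝓝 (a i))) →
      (∀ N : ℕ, ∀ᶠ k in atTop,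
        ((p : ℕ) : 𝓞 K) ^ N ∣ (((∏ i, ε i ^ m k i : (𝓞 K)ˣ) : 𝓞 K) - 1)) →
      a = 0

/-- The field `L ⊆ Ω` is a number field and satisfies Leopoldt's conjecture at `p`. -/
def LeopoldtFor {Ω : Type} [Field Ω] [CharZero Ω] (L : IntermediateField ℚ Ω) (p : ℕ)
    [Fact p.Prime] : Prop :=
  ∃ _ : NumberField L, Leopoldt L p

/-- The prime number `q` is unramified in the (possibly infinite) algebraic extension `E` of `ℚ`:
`(q)` is a radical ideal of the ring of the algebraic integers of `E`. -/
def Unramified (E : Type) [Field E] (q : ℕ) : Prop := (Ideal.span {(q : 𝓞 E)}).IsRadical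

/-- There is only one prime of `E` above the prime number `q`. -/
def Nonsplit (E : Type) [Field E] (q : ℕ) : Prop :=
  ∀ P P' : Ideal (𝓞 E), P.IsPrime → P'.IsPrime → (q : 𝓞 E) ∈ P → (q : 𝓞 E) ∈ P' → P = P'

/-- The condition on the ramification of `A / ℚ`: every ramified prime different from `p` has only
one prime of `k` above it. -/
def Admissible (p : ℕ) (k A : Type) [Field k] [Field A] : Prop :=
  ∀ q : ℕ, q.Prime → q ≠ p → Unramified A q ∨ Nonsplit k q

/-- An element `b` of `k` which at every prime `v` is a unit congruent to `1` modulo `p ^ 2`, up to
`p`-th powers, is a `p`-th power. -/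
def NoPrimary (p : ℕ) (k : Type) [Field k] [NumberField k] : Prop :=
  ∀ b : k, b ≠ 0 →
    (∀ v : HeightOneSpectrum (𝓞 k), ∃ y : k, v.valuation k (b * y ^ p) = 1 ∧
      v.valuation k (b * y ^ p - 1) ≤ v.valuation k ((p : k) ^ 2)) →
    ∃ y : k, b = y ^ p

/-- No ramification index of `k` above `p` is divisible by `p - 1`. -/
def SmallRamification (p : ℕ) (k : Type) [Field k] [NumberField k] : Prop :=
  ∀ v : HeightOneSpectrum (𝓞 k), (p : 𝓞 k) ∈ v.asIdeal →
    ∀ x : k, v.valuation k x ^ (p - 1) ≠ v.valuation k (p : k)

/-- The hypotheses on the base field `k ⊆ Ω`. -/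
def BaseField {Ω : Type} [Field Ω] [CharZero Ω] (p : ℕ) (k : IntermediateField ℚ Ω) : Prop :=
  ∃ _ : NumberField k, ¬ p ∣ finrank ℚ k ∧ NoPrimary p k ∧ (p = 2 → Nonsplit k 2) ∧
    (p ≠ 2 → SmallRamification p k)

/-- `A / ℚ` is a (possibly infinite) abelian extension, all of whose finite subextensions have
`p`-power degree. -/
def AbelianPro {Ω : Type} [Field Ω] [CharZero Ω] (p : ℕ) (A : IntermediateField ℚ Ω) : Prop :=
  IsGalois ℚ A ∧ (∀ g h : A ≃ₐ[ℚ] A, g * h = h * g) ∧
    ∀ F : IntermediateField ℚ Ω, F ≤ A → FiniteDimensional ℚ F → ∃ r : ℕ, finrank ℚ F = p ^ r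

/-- **Main result.** -/
theorem result (Ω : Type) [Field Ω] [CharZero Ω] :
    (∀ (p : ℕ) [Fact p.Prime] (k : IntermediateField ℚ Ω), BaseField p k →
      (∀ (r : ℕ) (F : IntermediateField ℚ Ω), IsGalois ℚ F → finrank ℚ F = p ^ r →
        Admissible p k F → (LeopoldtFor (k ⊔ F) p ↔ LeopoldtFor F p)) ∧
      (∀ A : IntermediateField ℚ Ω, AbelianPro p A → Admissible p k A →
        ∀ L : IntermediateField ℚ Ω, L ≤ k ⊔ A → FiniteDimensional ℚ L → LeopoldtFor L p) ∧
      ((finrank ℚ k).Prime → ¬ finrank ℚ k ∣ p - 1 →
        {q : ℕ | q.Prime ∧ q % p = 1 ∧ Nonsplit k q}.Infinite)) ∧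
    (∀ k : IntermediateField ℚ Ω, BaseField 2 k → ∀ L : IntermediateField ℚ Ω,
      L ≤ k ⊔ IntermediateField.adjoin ℚ {s : Ω | ∃ t : ℤ,
        (∀ q : ℕ, q.Prime → (q : ℤ) ∣ t → Nonsplit k q) ∧ s ^ 2 = (t : Ω)} →
      FiniteDimensional ℚ L → LeopoldtFor L 2) ∧
    (∀ α : Ω, α ^ 3 - α ^ 2 - 3 * α + 1 = 0 →
      BaseField 2 (IntermediateField.adjoin ℚ {α}) ∧
      BaseField 5 (IntermediateField.adjoin ℚ {α}) ∧
      finrank ℚ (IntermediateField.adjoin ℚ {α}) = 3 ∧
      IsTotallyReal (IntermediateField.adjoin ℚ {α}) ∧
      ¬ IsGalois ℚ (IntermediateField.adjoin ℚ {α})) :=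
  ⟨fun p hp k hk => ⟨fun r F hG hF hA => Pool.Agent.N848.OL.f1 p k F hk hG r hF hA,
      fun A hA hq L hL hf => Pool.Agent.N848.OL.f2 p k A hk hA hq L hL hf,
      fun h h' => Pool.Agent.N848.OL.f4 p k h h'⟩,
    fun k hk L hL hf => Pool.Agent.N848.OL.f3 k hk L hL hf,
    fun α hα => Pool.Agent.N848.OL.f5 α hα⟩

end Pool.Agent.Results.MP_5f2860_nt.CompositesAtEveryPrime
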