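import Pool.Agent.N551.LF.Fin

/-!
# One number field decides Leopoldt's conjecture for each finite dimensional space of coefficients

Let `p` be a prime, `Ω` the algebraic closure of `ℚ_p`, `L` the Iwasawa logarithm and `A ⊆ Ω` a finite
dimensional vector space over the field of algebraic numbers. We consider relations
`∑ a_i L(σ ε_i) = 0` between the `p`-adic logarithms of units `ε_i` of a field `K` of algebraic numbers,
with coefficients `a_i ∈ y A` for some `y ∈ Ω`; a Leopoldt relation is one which holds for all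
embeddings `σ : K → Ω`. There is ONE number field `F₀`, normal over `ℚ` and depending only on `A` and
`p`, such that for all fields `K` of algebraic numbers

(1) all relations come from units of `K ∩ F₀`: there are integral vectors `q_1, ..., q_s`, linearly
independent, and `b_j ∈ y' A` with `a_i = ∑_j q_j(i) b_j` such that the units
`η_j = ∏_i ε_i ^ (q_j(i))` belong to `F₀` (so that the relation is `∑_j b_j L(σ η_j) = 0`);

(2) `K` has a nontrivial relation (between multiplicatively independent units, for ONE embedding) if and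
only if `K ∩ F₀` has one, and it has a nontrivial Leopoldt relation if and only if `K ∩ F₀` has one;

(3) if `F₀` has no nontrivial Leopoldt relation with coefficients in `y A` then no number field has
one: Leopoldt's conjecture for `F₀` and `p` gives Leopoldt's conjecture at `p` for ALL number fields
as far as coefficients in the sets `y A` are concerned;

(4) the fields with a nontrivial relation are those which contain one of finitely many number fields,
and the same for Leopoldt relations; only finitely many fields without proper subfields have a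
nontrivial relation, for any embedding, and none with `K ∩ F₀ = ℚ`.

Proof. The logarithms of a maximal independent system of algebraic units are independent over the field
of algebraic numbers (Brumer). By the `p`-adic hyperplane theorem the relations between them with
coefficients in `A` span a space of finite dimension over the algebraic numbers, so only finitely
many units of the system are involved (library files `Pool.Agent.W254.PA`, helper254, whose unused
theorem `almost_all` is the statement on the fields with `K ∩ F₀ = ℚ` and on the fields without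
subfields); let `F₀` be the normal field generated by them. Write a relation between arbitrary units in
terms of a basis of the space spanned by its coefficients over `ℚ`: every coordinate gives a product
`∏ ε_i ^ (q(i))` whose logarithm is a rational combination of those of the units of `F₀`, hence a power
of the product belongs to `F₀`. The embeddings are moved by automorphisms, and `F₀` is normal.
-/

set_option autoImplicit false

namespace Pool.Agent.Results.MP_5f2860_nt.OneFieldForEachSpace

open NumberField

/-- `a_1, ..., a_r` belong to `y A` for some `y`. -/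
def InMultiple (p : ℕ) [Fact p.Prime]
    (A : Submodule (algebraicClosure ℚ (PadicAlgCl p)) (PadicAlgCl p)) (r : ℕ)
    (a : Fin r → PadicAlgCl p) : Prop :=
  ∃ y : PadicAlgCl p, ∀ i, ∃ x ∈ A, a i = y * x

/-- The units `ε_1, ..., ε_r` are multiplicatively independent. -/
def Independent (K : Type) [Field K] (r : ℕ) (ε : Fin r → (𝓞 K)ˣ) : Prop :=
  ∀ m : Fin r → ℤ, ∏ i, ε i ^ m i = 1 → m = 0

/-- `K` has a nontrivial relation `∑ a_i L(σ ε_i) = 0`, for some embedding `σ`, between
multiplicatively independent units, with coefficients in `y A`. -/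
def HasRelation (p : ℕ) [Fact p.Prime] (L : PadicAlgCl p → PadicAlgCl p)
    (A : Submodule (algebraicClosure ℚ (PadicAlgCl p)) (PadicAlgCl p)) (K : Type) [Field K] : Prop :=
  ∃ (σ : K →+* PadicAlgCl p) (r : ℕ) (ε : Fin r → (𝓞 K)ˣ) (a : Fin r → PadicAlgCl p),
    Independent K r ε ∧ InMultiple p A r a ∧ ∑ i, a i * L (σ ((ε i : 𝓞 K) : K)) = 0 ∧ a ≠ 0

/-- `K` has a nontrivial Leopoldt relation `∑ a_i L(σ ε_i) = 0`, for all embeddings `σ`, between
multiplicatively independent units, with coefficients in `y A`. -/
def HasLeopoldtRelation (p : ℕ) [Fact p.Prime] (L : PadicAlgCl p → PadicAlgCl p)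
    (A : Submodule (algebraicClosure ℚ (PadicAlgCl p)) (PadicAlgCl p)) (K : Type) [Field K] : Prop :=
  ∃ (r : ℕ) (ε : Fin r → (𝓞 K)ˣ) (a : Fin r → PadicAlgCl p), Independent K r ε ∧
    InMultiple p A r a ∧ (∀ σ : K →+* PadicAlgCl p, ∑ i, a i * L (σ ((ε i : 𝓞 K) : K)) = 0) ∧ a ≠ 0

/-- **Main result.** -/
theorem result (p : ℕ) [Fact p.Prime] (L : PadicAlgCl p → PadicAlgCl p)
    (hmul : ∀ x y : PadicAlgCl p, x ≠ 0 → y ≠ 0 → L (x * y) = L x + L y)
    (hprime : L ((p : ℕ) : PadicAlgCl p) = 0)
    (hser : ∀ z : PadicAlgCl p, ‖z‖ < 1 →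
      HasSum (fun n : ℕ => (-1 : PadicAlgCl p) ^ n * z ^ (n + 1) / ((n : PadicAlgCl p) + 1))
        (L (1 + z)))
    (A : Submodule (algebraicClosure ℚ (PadicAlgCl p)) (PadicAlgCl p))
    [FiniteDimensional (algebraicClosure ℚ (PadicAlgCl p)) A] :
    ∃ F₀ : IntermediateField ℚ (AlgebraicClosure ℚ), FiniteDimensional ℚ F₀ ∧ Normal ℚ F₀ ∧
      -- (1) descent
      (∀ (K : IntermediateField ℚ (AlgebraicClosure ℚ)) (σ : K →+* PadicAlgCl p) (r : ℕ)
        (ε : Fin r → (𝓞 K)ˣ) (a : Fin r → PadicAlgCl p), InMultiple p A r a →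
        ∑ i, a i * L (σ ((ε i : 𝓞 K) : K)) = 0 →
        ∃ (s : ℕ) (q : Fin s → Fin r → ℤ) (b : Fin s → PadicAlgCl p), LinearIndependent ℤ q ∧
          InMultiple p A s b ∧ (∀ i, a i = ∑ j, (q j i : PadicAlgCl p) * b j) ∧
          ∀ j, ((((∏ i, ε i ^ q j i : (𝓞 K)ˣ) : 𝓞 K) : K) : AlgebraicClosure ℚ) ∈ F₀) ∧
      -- (2) the equivalences
      (∀ K : IntermediateField ℚ (AlgebraicClosure ℚ), HasRelation p L A K ↔
        HasRelation p L A (K ⊓ F₀ : IntermediateField ℚ (AlgebraicClosure ℚ))) ∧
      (∀ K : IntermediateField ℚ (AlgebraicClosure ℚ), HasLeopoldtRelation p L A K ↔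
        HasLeopoldtRelation p L A (K ⊓ F₀ : IntermediateField ℚ (AlgebraicClosure ℚ))) ∧
      -- (3) one field decides
      (¬ HasLeopoldtRelation p L A F₀ → ∀ K : IntermediateField ℚ (AlgebraicClosure ℚ),
        ¬ HasLeopoldtRelation p L A K) ∧
      -- (4) finitely many minimal fields
      (∃ 𝓜 : Set (IntermediateField ℚ (AlgebraicClosure ℚ)), 𝓜.Finite ∧
        (∀ M ∈ 𝓜, FiniteDimensional ℚ M) ∧
        ∀ K : IntermediateField ℚ (AlgebraicClosure ℚ), HasRelation p L A K ↔ ∃ M ∈ 𝓜, M ≤ K) ∧
      (∃ 𝓜 : Set (IntermediateField ℚ (AlgebraicClosure ℚ)), 𝓜.Finite ∧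
        (∀ M ∈ 𝓜, FiniteDimensional ℚ M) ∧
        ∀ K : IntermediateField ℚ (AlgebraicClosure ℚ), HasLeopoldtRelation p L A K ↔
          ∃ M ∈ 𝓜, M ≤ K) ∧
      (∀ K : IntermediateField ℚ (AlgebraicClosure ℚ), K ⊓ F₀ = ⊥ → ¬ HasRelation p L A K) ∧
      {K : IntermediateField ℚ (AlgebraicClosure ℚ) |
        (∀ M : IntermediateField ℚ (AlgebraicClosure ℚ), M ≤ K → M = ⊥ ∨ M = K) ∧
          HasRelation p L A K}.Finite := by
  obtain ⟨F₀, h1, h2, h3, h4, h5, h6, h7, h8⟩ :=
    Pool.Agent.N551.LF.main (p := p) (L := L) ⟨hmul, hprime, hser⟩ A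
  have hfd : ∀ M : IntermediateField ℚ (AlgebraicClosure ℚ), M ≤ F₀ → FiniteDimensional ℚ M := by
    intro M hM
    have := h1
    exact FiniteDimensional.of_injective (IntermediateField.inclusion hM).toLinearMap
      (IntermediateField.inclusion hM).injective
  refine ⟨F₀, h1, h2, h3, h4, h5, fun h K hK => h (h6 K hK), ?_, ?_, h7, h8⟩
  · refine ⟨{M | M ≤ F₀ ∧ HasRelation p L A M},
      (Pool.Agent.N551.LF.finite_below' F₀ h1).subset (fun M hM => hM.1),
      fun M hM => hfd M hM.1, ?_⟩
    intro K
    constructor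
    · intro hK
      exact ⟨K ⊓ F₀, ⟨inf_le_right, (h4 K).mp hK⟩, inf_le_left⟩
    · rintro ⟨M, ⟨hM1, hM2⟩, hMK⟩
      exact Pool.Agent.N551.LF.hasRel_up A (IntermediateField.inclusion hMK : _ →+* K)
        (Pool.Agent.N551.LF.alg_sub K) hM2
  · refine ⟨{M | M ≤ F₀ ∧ HasLeopoldtRelation p L A M},
      (Pool.Agent.N551.LF.finite_below' F₀ h1).subset (fun M hM => hM.1),
      fun M hM => hfd M hM.1, ?_⟩
    intro K
    constructor
    · intro hK
      exact ⟨K ⊓ F₀, ⟨inf_le_right, (h5 K).mp hK⟩, inf_le_left⟩
    · rintro ⟨M, ⟨hM1, hM2⟩, hMK⟩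
      exact Pool.Agent.N551.LF.hasLeo_up A (IntermediateField.inclusion hMK : _ →+* K) hM2

end Pool.Agent.Results.MP_5f2860_nt.OneFieldForEachSpace
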