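import Pool.Agent.N918.PN.Leo
import Pool.Agent.N918.PN.Seq
import Pool.Agent.Results.MP_5f2860_nt.AlmostAllMembers

/-!
# Leopoldt's conjecture for ALL members in almost all residue classes modulo `p ^ k`, along random orbits and
# along metric sequences, for the families with `r₁ + 2 r₂` parameters

For integers `a_1, …, a_{r₁}`, `b_1, c_1, …, b_{r₂}, c_{r₂}`, `c_k > 0`, let

  `f = ∏ (Y - a_i) ∏ ((Y - b_k)² + c_k) - 1`   (`poly x`),

a polynomial of degree `n = r₁ + 2 r₂` which depends on `n` free parameters, and let `K = ℚ[Y]/(f)`. `Good p x` (see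
`AlmostAllMembers.lean`): `f` is irreducible, `K` has exactly `r₁` real and `r₂` complex places, and Leopoldt's conjecture
holds for `K` and the prime `p`. The vector `x` of parameters with `c_k > 0` for all `k` is bad if it is not good.

**Theorem.** (1) For every prime `p`, every signature `(r₁, r₂)` and every `ε > 0` there is `k` such that all but the
proportion `ε` of the residue classes modulo `p ^ k` contain NO bad vector `x`, of any size (`PNull`). So there is an open
set of full Haar measure in `ℤ_p ^ n` such that ALL the integral vectors `x` in this set with `c_k > 0` are good.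

(2) Random orbits: let `s_0, …, s_m ∈ SL_r(ℤ)`, `r ≥ 2`, generate `SL_r(ℤ/q)` for all `q` prime to some `q₀` (`Walk`; by
strong approximation all finite sets generating a Zariski dense subgroup, possibly of infinite index, are allowed), and
let `v ∈ ℤ^r`. Almost surely, for ALL odd primes `p` that divide neither `q₀` nor all coordinates of `v`, ALL signatures
and ALL choices `σ` of different coordinates as the parameters: the times `n` at which the vector of the parameters
taken from `c n = s_(w (n-1)) ⋯ s_(w 0) v` is bad have density zero.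

(3) Metric sequences: for any Koksma sequences `f_{i,0}, f_{i,1}, …` on intervals `[a_i, b_i]`, for almost all `α` in the
box the same holds for `c n = (⌊f_{i,n}(α_i)⌋)_i`, for ALL primes `p`, all signatures and all choices of the parameters.

(4) The same holds for almost all real vectors `α` and `c n = (⌊a_{i,n} α_i⌋)_i`, for ARBITRARY real numbers `a_{i,n}` with
`|a_{i,m} - a_{i,n}| ≥ δ > 0`, `m ≠ n`, in particular for every sequence of different integers, however sparse.

In `AlmostAllMembers` (helper924) the proportion of the bad vectors in boxes and along sequences which are uniformly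
distributed modulo all integers is shown to tend to zero. A set of density zero can be dense in `ℤ_p ^ n`; the random
orbits are not uniformly distributed modulo the integers (they consist of vectors which are primitive if `v` is).

Proof. The bad vectors are, up to the vectors with two parameters close to each other, in the union of the zero
sets of finitely many nonzero power series over `ℤ_p` (`Pool.Agent.N924.LP`, helper924), and these zero sets are
contained in few classes modulo a power of `p`. The random walk on the vectors modulo `p ^ k` has frequencies at most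
twice the uniform ones (`Pool.Agent.N763.SC.Seq`, helper763); engines: `Pool.Agent.N24.RW` (helpers 24, 123, 195, 300, 543,
765) and `Pool.Agent.N24.KM` (helpers 24, 344, 617, 199, 764, 432, 286).
-/

set_option autoImplicit false

namespace Pool.Agent.Results.MP_5f2860_nt.ResidueClassesAndOrbits

open MeasureTheory
open Pool.Agent.Results.MP_5f2860_nt.AlmostAllMembers (Ind Good good_iff)
open Pool.Agent.N24.RW (Walk orb words)
open Pool.Agent.N24.KM (Koksma Rarely)
open Pool.Agent.N918.PN (PNull PNull.pull pnull_leo orbit_rarely metric_rarely linear_rarely)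

/-- The vectors with `r` coordinates for which the parameters `x ∘ σ` are bad: all `c_k` are positive and the
member of the family is not good. -/
def Bad (p : ℕ) [Fact p.Prime] {r₁ r₂ r : ℕ} (σ : Ind r₁ r₂ → Fin r) : Set (Fin r → ℤ) :=
  {x | (∀ k, 0 < x (σ (Sum.inr (Sum.inr k)))) ∧ ¬ Good p (fun i => x (σ i))}

theorem pnull_bad (p : ℕ) [hp : Fact p.Prime] (r₁ r₂ : ℕ) (hr : 1 ≤ r₁ + r₂) :
    PNull p {x : Ind r₁ r₂ → ℤ | (∀ k, 0 < x (Sum.inr (Sum.inr k))) ∧ ¬ Good p x} := by
  refine (pnull_leo p hr).mono ?_ hp.out.pos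
  rintro x ⟨h1, h2⟩
  exact ⟨h1, fun h => h2 ((good_iff p x).2 h)⟩

theorem pnull_pull (p : ℕ) [hp : Fact p.Prime] {r₁ r₂ r : ℕ} (hr : 1 ≤ r₁ + r₂) (σ : Ind r₁ r₂ → Fin r)
    (hσ : Function.Injective σ) : PNull p (Bad p σ) :=
  (pnull_bad p r₁ r₂ hr).pull hp.out.pos σ hσ

/-- **Theorem.** -/
theorem result :
    (∀ (p : ℕ) [Fact p.Prime] (r₁ r₂ : ℕ), 1 ≤ r₁ + r₂ →
      PNull p {x : Ind r₁ r₂ → ℤ | (∀ k, 0 < x (Sum.inr (Sum.inr k))) ∧ ¬ Good p x}) ∧
    (∀ r : ℕ, 2 ≤ r → ∀ (W : Walk (Fin r)) (v : Fin r → ℤ), ∀ᵐ w ∂(words W.m),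
      ∀ (p : ℕ) [Fact p.Prime], p ≠ 2 → ¬ p ∣ W.q₀ → (∃ i, ¬ (p : ℤ) ∣ v i) →
        ∀ r₁ r₂ : ℕ, 1 ≤ r₁ + r₂ → ∀ σ : Ind r₁ r₂ → Fin r, Function.Injective σ →
          Rarely (orb W v w) (Bad p σ)) ∧
    (∀ (r : ℕ) (a b : Fin r → ℝ) (f : Fin r → ℕ → ℝ → ℝ), (∀ i, a i < b i) →
      (∀ i, Koksma (a i) (b i) (f i)) → ∀ᵐ α : Fin r → ℝ, (∀ i, α i ∈ Set.Icc (a i) (b i)) →
      ∀ (p : ℕ) [Fact p.Prime] (r₁ r₂ : ℕ), 1 ≤ r₁ + r₂ → ∀ σ : Ind r₁ r₂ → Fin r,
        Function.Injective σ → Rarely (fun n i => ⌊f i n (α i)⌋) (Bad p σ)) ∧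
    (∀ (r : ℕ) (a : Fin r → ℕ → ℝ) (δ : ℝ), 0 < δ → (∀ i m n, m ≠ n → δ ≤ |a i m - a i n|) →
      ∀ᵐ α : Fin r → ℝ, ∀ (p : ℕ) [Fact p.Prime] (r₁ r₂ : ℕ), 1 ≤ r₁ + r₂ →
        ∀ σ : Ind r₁ r₂ → Fin r, Function.Injective σ →
          Rarely (fun n i => ⌊a i n * α i⌋) (Bad p σ)) := by
  refine ⟨fun p hp r₁ r₂ hr => pnull_bad p r₁ r₂ hr, fun r hr W v => ?_, fun r a b f hab hf => ?_,
    fun r a δ hδ ha => ?_⟩
  · filter_upwards [orbit_rarely hr W v] with w hw p hp hp2 hq hi r₁ r₂ hr' σ hσ
    exact hw p hp.out hp2 hq hi _ (pnull_pull p hr' σ hσ)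
  · filter_upwards [metric_rarely a b f hab hf] with α hα hbox p hp r₁ r₂ hr' σ hσ
    exact hα hbox p hp.out _ (pnull_pull p hr' σ hσ)
  · filter_upwards [linear_rarely a δ hδ ha] with α hα p hp r₁ r₂ hr' σ hσ
    exact hα p hp.out _ (pnull_pull p hr' σ hσ)

end Pool.Agent.Results.MP_5f2860_nt.ResidueClassesAndOrbits
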